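import Pool.Agent.H50.ODG.Targets

set_option autoImplicit false

open Pool.Agent.H57.CP Pool.Agent.H39.TO Pool.Agent.H39.OD Pool.Agent.H50.ODG

namespace Pool.Agent.H49.ODG

theorem pf_EXA (hXL1 : T_XL1) (hXC2 : T_XC2) (hXC3 : T_XC3) (hXA4 : T_XA4) (hXA6 : T_XA6)
    (hXF1 : T_XF1) (hXF2 : T_XF2) (hXF3 : T_XF3) (hXF4 : T_XF4) : T_EXA := by
  intro u v w x x' n0 n1 n2 h hF
  rcases hF with hF | ⟨hF, hI⟩ | ⟨hF, hI⟩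
  · rcases hF with ⟨q, q', m, -, -, h1, h2, h3, rfl, rfl, rfl⟩ | ⟨p, c, hp, -, h1, h2, rfl, rfl, rfl⟩ |
      ⟨p, hp, h3, h7, ⟨rfl, rfl, rfl⟩ | ⟨rfl, rfl, rfl⟩⟩ | ⟨rfl, rfl, rfl⟩ | ⟨rfl, rfl, rfl⟩
    · exact hXL1 q q' m x x' n0 n1 n2 (by omega) (by omega) h3 h
    · exact (hXF1 p hp).1 c x x' n0 n1 n2 h1 (by omega) h
    · exact (hXF1 p hp).2 x x' n0 n1 n2 h7 h3 h
    · exact hXA4 p x x' n0 n1 n2 h7 h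
    · exact (hXF4 x x' n0 n1 n2).1 h
    · exact hXA6 x x' n0 n1 n2 h
  · rcases hF with ⟨p, hp, h7, ⟨rfl, rfl, rfl⟩ | ⟨rfl, rfl, rfl⟩ | ⟨h3, rfl, rfl, rfl⟩⟩ | ⟨rfl, rfl, rfl⟩
    · exact (hXF2 p hp h7 x x' n0 n1 n2 hI).1 h
    · exact (hXF2 p hp h7 x x' n0 n1 n2 hI).2.1 h
    · exact (hXF2 p hp h7 x x' n0 n1 n2 hI).2.2 h3 h
    · exact (hXF4 x x' n0 n1 n2).2 hI h
  · rcases hF with ⟨q, m, -, h1, h2, rfl, rfl, rfl⟩ | ⟨q, p, -, -, h1, h2, rfl, rfl, rfl⟩ |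
      ⟨p, hp, h7, ⟨rfl, rfl, rfl⟩ | ⟨rfl, rfl, rfl⟩⟩
    · exact hXL1 q q m x x' n0 n1 n2 (by omega) (by omega) h2 h
    · exact hXC2 q p x x' n0 n1 n2 (by omega) h2 h hI
    · exact hXC3 p x x' n0 n1 n2 h7 h hI
    · exact hXF3 p hp h7 x x' n0 n1 n2 hI h

end Pool.Agent.H49.ODG
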