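import Pool.Agent.H50.ODG.Targets
import Pool.Agent.H20.TOH.RFDA

set_option autoImplicit false

open Pool.Agent.H57.CP Pool.Agent.H39.TO Pool.Agent.H39.OD Pool.Agent.H50.ODG Pool.Agent.H20.TOH.R

namespace Pool.Agent.H49.ODG.P12

/-- the normal of a reflection which moves a vertex -/
theorem nrm_mem {V : Set H3} {a : Equiv.Perm H3} {n : V4} {z : H3} (hz : z ∈ V) (haz : a z ∈ V)
    (hne : a z ≠ z) (h : refl n z.1 = (a z).1) :
    n ∈ Submodule.span ℝ (Subtype.val '' V) := by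
  have h1 : mk n z.1 ≠ 0 := by
    intro h0
    apply hne
    apply Subtype.ext
    rw [← h, refl_fix h0]
  have h2 : n = (2 * mk n z.1)⁻¹ • ((a z).1 - z.1) := by
    rw [← h, refl_eq, add_sub_cancel_left, smul_smul, inv_mul_cancel₀ (by positivity), one_smul]
  rw [h2]
  exact Submodule.smul_mem _ _ (Submodule.sub_mem _ (Submodule.subset_span ⟨_, haz, rfl⟩)
    (Submodule.subset_span ⟨_, hz, rfl⟩))

theorem pf_P12 (hSPV : T_SPV) (hBAL : T_BAL) (hMKI : T_MKI) (hLOR : T_LOR) (hEXT : T_EXT)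
    (hSPN : T_SPN) (hPRP : T_PRP) (hCTR : T_CTR) : T_P12 := by
  classical
  intro K x x' f a b c q q' m n0 n1 n2 hK D u0 u1 u2 ra rb rc
  have ra' : RV K.V a (refl n0) := ra
  have rb' : RV K.V b (refl n1) := rb
  have rc' : RV K.V c (refl n2) := rc
  have hxV : x ∈ K.V := by rw [D.eV]; exact ⟨1, one_mem _, Or.inl rfl⟩
  have hx'V : x' ∈ K.V := by rw [D.eV]; exact ⟨1, one_mem _, Or.inr rfl⟩
  have hsa := D.sa.v
  have hsb := D.sb.v
  have hsc := D.sc.v
  have hY : ∀ A ∈ ({refl n0, refl n1, refl n2} : Set (Module.End ℝ V4)), A * A = 1 := by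
    rintro g (rfl | rfl | rfl)
    exacts [refl_sq u0, refl_sq u1, refl_sq u2]
  have hXV : ∀ g ∈ ({a, b, c} : Set (Equiv.Perm H3)), ∀ z, g z ∈ K.V ↔ z ∈ K.V := by
    rintro g (rfl | rfl | rfl)
    exacts [hsa, hsb, hsc]
  have hXY : ∀ g ∈ ({a, b, c} : Set (Equiv.Perm H3)),
      ∃ A ∈ ({refl n0, refl n1, refl n2} : Set (Module.End ℝ V4)), RV K.V g A := by
    rintro g (rfl | rfl | rfl)
    · exact ⟨_, Or.inl rfl, ra'⟩
    · exact ⟨_, Or.inr (Or.inl rfl), rb'⟩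
    · exact ⟨_, Or.inr (Or.inr rfl), rc'⟩
  have hYX : ∀ A ∈ ({refl n0, refl n1, refl n2} : Set (Module.End ℝ V4)),
      ∃ g ∈ ({a, b, c} : Set (Equiv.Perm H3)), RV K.V g A := by
    rintro g (rfl | rfl | rfl)
    · exact ⟨a, Or.inl rfl, ra'⟩
    · exact ⟨b, Or.inr (Or.inl rfl), rb'⟩
    · exact ⟨c, Or.inr (Or.inr rfl), rc'⟩
  have hs0 : n0 ∈ Submodule.span ℝ (Subtype.val '' K.V) :=
    nrm_mem hx'V ((hsa _).2 hx'V) D.ax (ra x' hx'V)
  have hs1 : n1 ∈ Submodule.span ℝ (Subtype.val '' K.V) :=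
    nrm_mem hxV ((hsb _).2 hxV) D.bx (rb x hxV)
  have hs2 : n2 ∈ Submodule.span ℝ (Subtype.val '' K.V) := by
    obtain ⟨z, hz, hcz⟩ := D.c1
    exact nrm_mem hz ((hsc _).2 hz) hcz (rc z hz)
  have hsub : Gam n0 n1 n2 ≤ Submonoid.closure {r | ∃ n : V4, mk n n = -1 ∧
      n ∈ Submodule.span ℝ (Subtype.val '' K.V) ∧ r = refl n} := by
    apply Submonoid.closure_mono
    rintro g (rfl | rfl | rfl)
    · exact ⟨n0, u0, hs0, rfl⟩
    · exact ⟨n1, u1, hs1, rfl⟩
    · exact ⟨n2, u2, hs2, rfl⟩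
  have uniq1 : ∀ A ∈ Gam n0 n1 n2, (∀ z ∈ K.V, A z.1 = z.1) → A = 1 := fun A hA h =>
    hSPV K.V A ⟨x, hxV⟩ (hsub hA) h
  have uniq : ∀ A ∈ Gam n0 n1 n2, ∀ B ∈ Gam n0 n1 n2, (∀ z ∈ K.V, A z.1 = B z.1) → A = B := by
    intro A hA B hB h
    obtain ⟨B', hB', h1, h2⟩ := sub_inv hY hB
    have h3 : B' * A = 1 := by
      apply uniq1 _ (mul_mem hB' hA)
      intro z hz
      rw [Module.End.mul_apply, h z hz, ← Module.End.mul_apply, h2]
      rfl
    calc A = (B * B') * A := by rw [h1, one_mul]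
      _ = B := by rw [mul_assoc, h3, mul_one]
  have m0 : refl n0 ∈ Gam n0 n1 n2 := Submonoid.subset_closure (Or.inl rfl)
  have m1 : refl n1 ∈ Gam n0 n1 n2 := Submonoid.subset_closure (Or.inr (Or.inl rfl))
  have m2 : refl n2 ∈ Gam n0 n1 n2 := Submonoid.subset_closure (Or.inr (Or.inr rfl))
  have ordl : ∀ (A : Module.End ℝ V4) (g : Equiv.Perm H3) (j : ℕ), A ∈ Gam n0 n1 n2 →
      RV K.V g A → (∀ z ∈ K.V, g z ∈ K.V) → (A ^ j = 1 ↔ ∀ z ∈ K.V, (g ^ j) z = z) := by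
    intro A g j hA hg hgV
    obtain ⟨h1, h2⟩ := RV_pow hgV hg j
    constructor
    · intro h z hz
      apply Subtype.ext
      rw [← h2 z hz, h]
      rfl
    · intro h
      apply uniq1 _ (pow_mem hA j)
      intro z hz
      rw [h2 z hz, h z hz]
  have rac : RV K.V (a * c) (refl n0 * refl n2) := by
    intro z hz
    rw [Module.End.mul_apply, rc z hz, ra _ ((hsc z).2 hz)]
    rfl
  have rbc : RV K.V (b * c) (refl n1 * refl n2) := by
    intro z hz
    rw [Module.End.mul_apply, rc z hz, rb _ ((hsc z).2 hz)]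
    rfl
  have hdiv : ∀ (g : Equiv.Perm H3) (v : H3) (p : ℕ), v ∈ K.V → (∀ j : ℕ, (g ^ j) v = v ↔ p ∣ j) →
      (∀ z ∈ K.V, (g ^ p) z = z) → ∀ j : ℕ, (∀ z ∈ K.V, (g ^ j) z = z) ↔ p ∣ j := by
    intro g v p hv h1 h2 j
    constructor
    · intro h
      exact (h1 j).1 (h v hv)
    · rintro ⟨i, rfl⟩ z hz
      rw [pow_mul]
      exact Equiv.Perm.pow_apply_eq_self_of_apply_eq_self (h2 z hz) i
  have hG3 : ∀ A ∈ Gam n0 n1 n2, ∃ g ∈ G3 a b c, (∀ z, g z ∈ K.V ↔ z ∈ K.V) ∧ RV K.V g A :=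
    fun A hA => words' hXV hYX hA
  have hiso : ∀ g ∈ G3 a b c, IsIso g := by
    intro g hg
    unfold G3 at hg
    induction hg using Subgroup.closure_induction with
    | mem y hy =>
      rcases hy with rfl | rfl | rfl
      exacts [D.sa.iso, D.sb.iso, D.sc.iso]
    | one => exact fun _ _ => rfl
    | mul y w _ _ hy hw =>
      intro z t
      rw [Equiv.Perm.mul_apply, Equiv.Perm.mul_apply, hy, hw]
    | inv y _ hy =>
      intro z w
      rw [← hy (y⁻¹ z) (y⁻¹ w)]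
      simp
  -- the vertices are separated
  obtain ⟨ε1, hε1, hdis1⟩ := hK.dis x hxV
  obtain ⟨ε2, hε2, hdis2⟩ := hK.dis x' hx'V
  have hsep : ∀ z ∈ K.V, ∀ y ∈ K.V, z ≠ y → 1 + min ε1 ε2 ≤ ch z y := by
    intro z hz y hy hzy
    have hz' := hz
    rw [D.eV] at hz'
    obtain ⟨g, hg, h⟩ := hz'
    have hgV := (words hXV hXY hY (inv_mem hg)).1
    have key : ∀ (v : H3) (ε : ℝ), (∀ y ∈ K.V, y ≠ v → 1 + ε ≤ ch v y) → z = g v →
        1 + ε ≤ ch z y := by
      intro v ε hd he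
      rw [he, ← hiso _ (inv_mem hg) (g v) y]
      have h4 : g⁻¹ (g v) = v := by simp
      rw [h4]
      apply hd
      · exact (hgV y).2 hy
      · intro h5
        apply hzy
        rw [he, ← h5]
        simp
    rcases h with h | h
    · exact le_trans (by gcongr; exact min_le_left _ _) (key x ε1 hdis1 h)
    · exact le_trans (by gcongr; exact min_le_right _ _) (key x' ε2 hdis2 h)
  have hmin : 0 < min ε1 ε2 := lt_min hε1 hε2
  have hpro : ∀ R : ℝ, {g | g ∈ Gam n0 n1 n2 ∧ mk x.1 (g x.1) ≤ R}.Finite := by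
    intro R
    obtain ⟨T, hT1, hT2⟩ := (Submodule.fg_span_iff_fg_span_finset_subset
      (R := ℝ) (Subtype.val '' K.V)).mp (Submodule.FG.of_finite)
    have hfin : (Set.pi Set.univ (fun y : T => (Subtype.val : H3 → V4) ''
        {z | z ∈ K.V ∧ ch x z ≤ 2 * R * mk x.1 y.1})).Finite :=
      Set.Finite.pi fun y => (hBAL K.V _ hmin hsep x _).image _
    refine Set.Finite.of_finite_image (f := fun (g : Module.End ℝ V4) (y : T) => g y.1)
      (hfin.subset ?_) ?_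
    · rintro F ⟨g, ⟨hg, hgR⟩, rfl⟩
      intro y _
      obtain ⟨z, hz, hzy⟩ := hT1 y.2
      obtain ⟨γ, hγ, hγV, hγg⟩ := hG3 g hg
      refine ⟨γ z, ⟨(hγV z).2 hz, ?_⟩, ?_⟩
      · have h1 := (hCTR x (γ x) (γ z)).2.2
        have h2 := hiso γ hγ x z
        rw [h2] at h1
        have h3 : ch x (γ x) ≤ R := by
          unfold ch
          rw [← hγg x hxV]
          exact hgR
        have h4 : 1 ≤ ch x z := (hCTR x z z).1
        have h5 : ch x z = mk x.1 y.1 := by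
          unfold ch
          rw [hzy]
        rw [← h5]
        refine h1.trans ?_
        have : ch x (γ x) * ch x z ≤ R * ch x z :=
          mul_le_mul_of_nonneg_right h3 (by linarith)
        linarith
      · change (γ z).1 = g y.1
        rw [← hγg z hz, hzy]
    · rintro g ⟨hg, -⟩ g' ⟨hg', -⟩ he
      apply uniq g hg g' hg'
      intro z hz
      have h1 : z.1 ∈ Submodule.span ℝ (T : Set V4) := by
        rw [← hT2]
        exact Submodule.subset_span ⟨z, hz, rfl⟩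
      have h2 : Set.EqOn g g' (T : Set V4) := fun y hy => congrFun he ⟨y, hy⟩
      exact LinearMap.eqOn_span h2 h1
  refine ⟨hPRP x n0 n1 n2 u0 u1 u2 hpro, fun k => ?_, fun k => ?_⟩
  · exact (ordl _ (a * c) k (mul_mem m0 m2) rac (fun z hz => (hsa _).2 ((hsc z).2 hz))).trans
      (hdiv _ x' q hx'V D.o1 D.o1' k)
  · exact (ordl _ (b * c) k (mul_mem m1 m2) rbc (fun z hz => (hsb _).2 ((hsc z).2 hz))).trans
      (hdiv _ x q' hxV D.o2 D.o2' k)

end Pool.Agent.H49.ODG.P12
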