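import Pool.Agent.H50.ODG.Targets

set_option autoImplicit false

open Pool.Agent.H57.CP Pool.Agent.H39.TO Pool.Agent.H39.OD Pool.Agent.H50.ODG

namespace Pool.Agent.H49.ODG

theorem mk_comm (x y : V4) : mk x y = mk y x := by simp only [mk]; ring

theorem mk_add_l (x y z : V4) : mk (x + y) z = mk x z + mk y z := by
  simp only [mk, Pi.add_apply]; ring

theorem mk_sub_l (x y z : V4) : mk (x - y) z = mk x z - mk y z := by
  simp only [mk, Pi.sub_apply]; ring

theorem mk_smul_l (c : ℝ) (x z : V4) : mk (c • x) z = c * mk x z := by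
  simp only [mk, Pi.smul_apply, smul_eq_mul]; ring

theorem mk_neg_l (x z : V4) : mk (-x) z = -mk x z := by
  simp only [mk, Pi.neg_apply]; ring

theorem mk_add_r (x y z : V4) : mk z (x + y) = mk z x + mk z y := by
  simp only [mk, Pi.add_apply]; ring

theorem mk_sub_r (x y z : V4) : mk z (x - y) = mk z x - mk z y := by
  simp only [mk, Pi.sub_apply]; ring

theorem mk_smul_r (c : ℝ) (x z : V4) : mk z (c • x) = c * mk z x := by
  simp only [mk, Pi.smul_apply, smul_eq_mul]; ring

theorem mk_neg_r (x z : V4) : mk z (-x) = -mk z x := by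
  simp only [mk, Pi.neg_apply]; ring

theorem refl_eq (a x : V4) : refl a x = x + (2 * mk a x) • a := by
  funext i
  simp [Pool.Agent.H57.CP.refl]

theorem mk_refl (a x y : V4) : mk (refl a x) y = mk x (refl a y) := by
  rw [refl_eq, refl_eq, mk_add_l, mk_smul_l, mk_add_r, mk_smul_r, mk_comm x a]; ring

theorem refl_refl {a : V4} (ha : mk a a = -1) (x : V4) : refl a (refl a x) = x := by
  rw [refl_eq, refl_eq a x, mk_add_r, mk_smul_r, ha, add_assoc, ← add_smul]
  have : 2 * mk a x + 2 * (mk a x + 2 * mk a x * -1) = 0 := by ring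
  rw [this, zero_smul, add_zero]

theorem refl_neg (a : V4) : refl (-a) = refl a := by
  refine LinearMap.ext fun x => ?_
  rw [refl_eq, refl_eq, mk_neg_l]
  module

/-- conjugation of reflections -/
theorem refl_conj {a b : V4} (ha : mk a a = -1) :
    (refl (refl a b) : Module.End ℝ V4) = refl a * refl b * refl a := by
  apply LinearMap.ext
  intro x
  rw [Module.End.mul_apply, Module.End.mul_apply, refl_eq (refl a b), refl_eq b, map_add, map_smul,
    refl_refl ha, mk_refl]

theorem pf_XC3 (hCHV : T_CHV) (hNR3 : T_NR3) (hCFI : T_CFI) (hVSR : T_VSR) (hLIP : T_LIP)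
    (hLOR : T_LOR) (hMKI : T_MKI) : T_XC3 := by
  intro p x x' n0 n1 n2 hp h hI
  have hp0 : (0 : ℝ) < p := by
    have : 0 < p := by omega
    exact_mod_cast this
  have hp7 : (7 : ℝ) ≤ p := by exact_mod_cast hp
  set θ : ℝ := Real.pi / p with hθ
  have hθ0 : 0 < θ := div_pos Real.pi_pos hp0
  have hθ7 : θ ≤ Real.pi / 7 := by
    rw [hθ]
    exact div_le_div_of_nonneg_left Real.pi_pos.le (by norm_num) hp7
  have hpi := Real.pi_pos
  have c1 : 0 < Real.cos θ := Real.cos_pos_of_mem_Ioo ⟨by linarith, by linarith⟩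
  have c2 : 0 < Real.cos (2 * θ) := Real.cos_pos_of_mem_Ioo ⟨by linarith, by linarith⟩
  have s1 : 0 < Real.sin θ := Real.sin_pos_of_pos_of_lt_pi hθ0 (by linarith)
  have e1 : cn (1 / p) = Real.cos θ := by
    unfold cn
    rw [hθ]
    push_cast
    congr 1
    ring
  have e4 : cn (4 / p) = 2 * Real.cos (2 * θ) ^ 2 - 1 := by
    unfold cn
    rw [← Real.cos_two_mul, hθ]
    push_cast
    congr 1
    ring
  have e2 : Real.cos (2 * θ) = 2 * Real.cos θ ^ 2 - 1 := Real.cos_two_mul θ
  obtain ⟨u0, u1, u2, e02, e12, e01, xa, xc, yb, yc, xb, ya⟩ := h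
  rw [e1] at e02 e12
  rw [e4] at e01
  set C := Real.cos θ with hC
  set D := Real.cos (2 * θ) with hD
  have e20 : mk n2 n0 = C := by rw [mk_comm]; exact e02
  have e21 : mk n2 n1 = C := by rw [mk_comm]; exact e12
  have e10 : mk n1 n0 = 2 * D ^ 2 - 1 := by rw [mk_comm]; exact e01
  -- the normal `n`
  set n : V4 := (1 / (2 * D)) • (n0 - n1) with hn
  have hnn0 : mk n n0 = -D := by
    rw [hn, mk_smul_l, mk_sub_l, u0, e10]
    field_simp
    ring
  have hnn1 : mk n n1 = D := by
    rw [hn, mk_smul_l, mk_sub_l, u1, e01]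
    field_simp
    ring
  have hnn2 : mk n n2 = 0 := by
    rw [hn, mk_smul_l, mk_sub_l, e02, e12, sub_self, mul_zero]
  have hnn : mk n n = -1 := by
    nth_rewrite 2 [hn]
    rw [mk_smul_r, mk_sub_r, hnn0, hnn1]
    field_simp
    ring
  have rn0 : refl n n0 = n1 := by
    rw [refl_eq, hnn0, hn, smul_smul]
    have : 2 * -D * (1 / (2 * D)) = -1 := by field_simp
    rw [this]
    module
  have rn2 : refl n n2 = n2 := by
    rw [refl_eq, hnn2, mul_zero, zero_smul, add_zero]
  -- the normal `m`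
  set m : V4 := (1 / (2 * C)) • (-n - n0) with hm
  have hmn0 : mk m n0 = C := by
    rw [hm, mk_smul_l, mk_sub_l, mk_neg_l, hnn0, u0, e2]
    field_simp
    ring
  have hmn : mk m n = C := by
    rw [hm, mk_smul_l, mk_sub_l, mk_neg_l, hnn, mk_comm n0 n, hnn0, e2]
    field_simp
    ring
  have hmn2 : mk m n2 = -(1 / 2) := by
    rw [hm, mk_smul_l, mk_sub_l, mk_neg_l, hnn2, e02]
    field_simp
    ring
  have hmm : mk m m = -1 := by
    nth_rewrite 2 [hm]
    rw [mk_smul_r, mk_sub_r, mk_neg_r, hmn, hmn0]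
    field_simp
    ring
  -- the normal `k`
  set k : V4 := m - n2 with hk
  have hkn0 : mk n0 k = 0 := by
    rw [hk, mk_sub_r, mk_comm n0 m, hmn0, e02, sub_self]
  have hkn2 : mk n2 k = 1 / 2 := by
    rw [hk, mk_sub_r, mk_comm n2 m, hmn2, u2]
    norm_num
  have hkk : mk k k = -1 := by
    nth_rewrite 1 [hk]
    rw [mk_sub_l, hkn2, hk, mk_sub_r, hmm, hmn2]
    norm_num
  have rk2 : refl k n2 = m := by
    rw [refl_eq, mk_comm k n2, hkn2, hk]
    module
  have rm0 : refl m n0 = -n := by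
    rw [refl_eq, hmn0, hm, smul_smul]
    have : 2 * C * (1 / (2 * C)) = 1 := by field_simp
    rw [this]
    module
  -- the group
  have hle : Gam n0 n1 n2 ≤ Gam n0 n2 k := by
    have g0 : (refl n0 : Module.End ℝ V4) ∈ Gam n0 n2 k := Submonoid.subset_closure (by simp)
    have g2 : (refl n2 : Module.End ℝ V4) ∈ Gam n0 n2 k := Submonoid.subset_closure (by simp)
    have gk : (refl k : Module.End ℝ V4) ∈ Gam n0 n2 k := Submonoid.subset_closure (by simp)
    have gm : (refl m : Module.End ℝ V4) ∈ Gam n0 n2 k := by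
      rw [← rk2, refl_conj hkk]
      exact mul_mem (mul_mem gk g2) gk
    have gn : (refl n : Module.End ℝ V4) ∈ Gam n0 n2 k := by
      have e : (refl n : Module.End ℝ V4) = refl (refl m n0) := by rw [rm0, refl_neg]
      rw [e, refl_conj hmm]
      exact mul_mem (mul_mem gm g0) gm
    have g1 : (refl n1 : Module.End ℝ V4) ∈ Gam n0 n2 k := by
      rw [← rn0, refl_conj hnn]
      exact mul_mem (mul_mem gn g0) gn
    refine Submonoid.closure_le.mpr ?_
    rintro g (rfl | rfl | rfl)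
    · exact g0
    · exact g1
    · exact g2
  have gn : (refl n : Module.End ℝ V4) ∈ Gam n0 n2 k := by
    have g0 : (refl n0 : Module.End ℝ V4) ∈ Gam n0 n2 k := Submonoid.subset_closure (by simp)
    have g2 : (refl n2 : Module.End ℝ V4) ∈ Gam n0 n2 k := Submonoid.subset_closure (by simp)
    have gk : (refl k : Module.End ℝ V4) ∈ Gam n0 n2 k := Submonoid.subset_closure (by simp)
    have gm : (refl m : Module.End ℝ V4) ∈ Gam n0 n2 k := by
      rw [← rk2, refl_conj hkk]
      exact mul_mem (mul_mem gk g2) gk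
    have e : (refl n : Module.End ℝ V4) = refl (refl m n0) := by rw [rm0, refl_neg]
    rw [e, refl_conj hmm]
    exact mul_mem (mul_mem gm g0) gm
  -- points
  have hxn : mk x.1 n = -mk x.1 n1 / (2 * D) := by
    rw [hn, mk_smul_r, mk_sub_r, xa]
    field_simp
    ring
  have hxk : mk x.1 k < 0 := by
    rw [hk, mk_sub_r, xc, hm, mk_smul_r, mk_sub_r, mk_neg_r, xa, hxn, sub_zero, sub_zero]
    have : 0 < -mk x.1 n1 / (2 * D) := div_pos (by linarith) (by positivity)
    have h2 : 0 < 1 / (2 * C) := by positivity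
    nlinarith
  obtain ⟨g, hg1, hg2⟩ := hMKI (refl n) ((hLOR.2.2 n hnn).1)
  set x0 : H3 := g x' with hx0
  have hx0' : x0.1 = refl n x'.1 := (hg2 x').symm
  have hx0n0 : mk x0.1 n0 = 0 := by rw [hx0', mk_refl, rn0, yb]
  have hx0n2 : mk x0.1 n2 = 0 := by rw [hx0', mk_refl, rn2, yc]
  have hrn : refl n n = -n := by
    rw [refl_eq, hnn]
    module
  have hx0n : mk x0.1 n = -mk x'.1 n0 / (2 * D) := by
    rw [hx0', mk_refl, hrn, mk_neg_r, hn, mk_smul_r, mk_sub_r, yb]
    field_simp
    ring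
  have hx0k : mk x0.1 k < 0 := by
    rw [hk, mk_sub_r, hx0n2, hm, mk_smul_r, mk_sub_r, mk_neg_r, hx0n0, hx0n, sub_zero, sub_zero]
    have : 0 < -mk x'.1 n0 / (2 * D) := div_pos (by linarith) (by positivity)
    have h2 : 0 < 1 / (2 * C) := by positivity
    nlinarith
  have hne : x ≠ x0 := by
    intro he
    apply hI
    refine ⟨2 * mk n x'.1 * (1 / (2 * D)), -(2 * mk n x'.1 * (1 / (2 * D))), 0, ?_⟩
    have : x.1 = x'.1 + (2 * mk n x'.1) • n := by
      rw [he, hx0', refl_eq]
    rw [this, hn]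
    module
  have hli : LinearIndependent ℝ ![n0, n2, k] := by
    refine hLIP x.1 n0 n2 k u0 u2 ?_ xa xc hxk.ne
    rw [e02]
    have := Real.sin_sq_add_cos_sq θ
    have h3 : 0 < Real.sin θ ^ 2 := by positivity
    linarith
  obtain ⟨M, hM, hM1, -, -⟩ := hNR3 p 2 3 n0 n2 k (by omega) le_rfl (by norm_num) u0 u2 hkk e02
    (by rw [hkn0]; norm_num) (by rw [hkn2]; norm_num) hli
  have hVS := hCHV M ![n0, n2, k] hM x x0 0 1 2 0 1 2 (by decide) (by decide) (by decide)
    (by decide) (by decide) (by decide) (by rw [hM1]; omega) (by rw [hM1]; omega)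
    xa xc hxk hx0n0 hx0n2 hx0k hne
  have hVS2 := hVSR.2.2.1 (Gam n0 n2 k) (C2 n0 n2) n0 n2 n x x0 x' hnn gn
    (by rw [hx0', refl_refl hnn]) hVS
  rw [rn0, rn2] at hVS2
  exact hVSR.1 (Gam n0 n2 k) (Gam n0 n1 n2) _ _ x x' hle hVS2

end Pool.Agent.H49.ODG
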